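import Pool.Agent.Helper21.RM.Sim
import Pool.Agent.Helper8.PQ.AsymS

/-!
# The bounds for machines with real registers
-/

set_option autoImplicit false

namespace Pool.Agent.Helper21.RM

open Finset
open Pool.Agent.Helper22.ETModel Pool.Agent.Helper22.TSModel Pool.Agent.Helper22.EP
open Pool.Agent.Helper8.PQ (PolQ polFam FewSigns ValidC asymS ev_const logb_le)

private lemma rmf_W_pos {n d a e D W r R : ℕ} (A : Mach n d a e D W r R) : 1 ≤ W := by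
  have := (A.init (fun _ _ => false) (fun _ => false)).isLt
  omega

/-- The logarithm is at most a small power. -/
private lemma rmf_log {κ η : ℝ} (hκ : 0 ≤ κ) (hη : 0 < η) :
    ∀ᶠ n : ℕ in Filter.atTop, 1 + κ * Real.logb 2 n ≤ (n : ℝ) ^ η := by
  filter_upwards [ev_const (1 + κ * (2 / (η / 2))) (η / 2) (by positivity),
    Filter.eventually_ge_atTop 1] with n h1 h2
  have hn1 : (1 : ℝ) ≤ n := by exact_mod_cast h2
  have hn0 : (0 : ℝ) < n := by linarith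
  have h3 : Real.logb 2 n ≤ 2 / (η / 2) * (n : ℝ) ^ (η / 2) := logb_le hn0 (by positivity)
  have h4 : 1 ≤ (n : ℝ) ^ (η / 2) := Real.one_le_rpow hn1 (by positivity)
  calc 1 + κ * Real.logb 2 n ≤ 1 * (n : ℝ) ^ (η / 2) +
        κ * (2 / (η / 2) * (n : ℝ) ^ (η / 2)) := by
        apply add_le_add
        · linarith
        · exact mul_le_mul_of_nonneg_left h3 hκ
    _ = (1 + κ * (2 / (η / 2))) * (n : ℝ) ^ (η / 2) := by ring
    _ ≤ (n : ℝ) ^ (η / 2) * (n : ℝ) ^ (η / 2) := mul_le_mul_of_nonneg_right h1 (by positivity)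
    _ = (n : ℝ) ^ η := by
        rw [← Real.rpow_add hn0]
        ring_nf

/-- Room in a strict inequality. -/
private lemma rmf_room {b ε F c x : ℝ} (hb : 0 ≤ b) (hε : 0 < ε) (hx : 0 ≤ x)
    (h : b * (x * (2 / ε + 3) + 1) + F < c) :
    ∃ t ε' : ℝ, 0 < t ∧ 0 < ε' ∧ ε' < ε ∧ (b + t) * (x * (2 / ε' + 3) + 1) + F < c := by
  obtain ⟨G, hG⟩ : ∃ G : ℝ, G = x * (4 / ε + 3) + 1 + b * x * (2 / ε) := ⟨_, rfl⟩
  have hG0 : 0 < G := by rw [hG]; positivity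
  obtain ⟨u, hu⟩ : ∃ u : ℝ, u = c - (b * (x * (2 / ε + 3) + 1) + F) := ⟨_, rfl⟩
  have hu0 : 0 < u := by rw [hu]; linarith
  obtain ⟨t, ht0, ht1, ht2⟩ : ∃ t : ℝ, 0 < t ∧ t ≤ 1 ∧ t * G ≤ u / 2 := by
    refine ⟨min 1 (u / 2 / G), by positivity, min_le_left _ _, ?_⟩
    calc min 1 (u / 2 / G) * G ≤ (u / 2 / G) * G :=
          mul_le_mul_of_nonneg_right (min_le_right _ _) hG0.le
      _ = u / 2 := div_mul_cancel₀ _ hG0.ne'
  refine ⟨t, ε / (1 + t), ht0, by positivity, ?_, ?_⟩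
  · rw [div_lt_iff₀ (by linarith)]
    have : 0 < ε * t := by positivity
    linarith
  · have h1 : 2 / (ε / (1 + t)) = 2 / ε * (1 + t) := by
      rw [div_div_eq_mul_div, div_mul_eq_mul_div]
    rw [h1]
    have h2 : (b + t) * (x * (2 / ε * (1 + t) + 3) + 1) =
        b * (x * (2 / ε + 3) + 1) + (t * (x * (2 / ε * (1 + t) + 3) + 1) + t * (b * x * (2 / ε))) := by
      ring
    have h3 : 2 / ε * (1 + t) ≤ 4 / ε := by
      have : 2 / ε * (1 + t) ≤ 2 / ε * 2 := mul_le_mul_of_nonneg_left (by linarith) (by positivity)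
      calc 2 / ε * (1 + t) ≤ 2 / ε * 2 := this
        _ = 4 / ε := by ring
    have h4 : x * (2 / ε * (1 + t) + 3) ≤ x * (4 / ε + 3) :=
      mul_le_mul_of_nonneg_left (by linarith) hx
    have h5 : t * (x * (2 / ε * (1 + t) + 3) + 1) + t * (b * x * (2 / ε)) ≤ t * G := by
      rw [hG]
      calc t * (x * (2 / ε * (1 + t) + 3) + 1) + t * (b * x * (2 / ε))
          = t * (x * (2 / ε * (1 + t) + 3) + 1 + b * x * (2 / ε)) := by ring
        _ ≤ t * (x * (4 / ε + 3) + 1 + b * x * (2 / ε)) :=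
            mul_le_mul_of_nonneg_left (by linarith) ht0.le
    rw [h2]
    linarith

/-- The bound for machines with real registers, any memory. -/
theorem asym_reg (d e q c : ℕ) (κL κS ε : ℝ) (hd : 1 ≤ d) (he : 1 ≤ e) (hL : 0 ≤ κL)
    (hS : 0 ≤ κS) (hε : 0 < ε)
    (h : (κS + q * κL) * (d * e * (2 / ε + 3) + 1) + 2 * (d * e + 1) * (d * e + 4) < c) :
    ∃ δ : ℝ, 0 < δ ∧ ∃ n₀ : ℕ, ∀ n : ℕ, n₀ ≤ n → ∀ a NL NS D W r R : ℕ,
      (a : ℝ) ≤ (n : ℝ) ^ δ → (NL : ℝ) ≤ (n : ℝ) ^ κL → (NS : ℝ) ≤ (n : ℝ) ^ κS →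
      ∀ A : Mach n d a e D W r R, A.Vocab NL NS → A.Touch q → A.DecidesC c →
        (n : ℝ) ^ (3 - ε) ≤ D * (1 + r + Real.logb 2 W) := by
  have hq0 : (0 : ℝ) ≤ q := Nat.cast_nonneg q
  have hb0 : 0 ≤ κS + q * κL := by positivity
  obtain ⟨t, ε', ht0, hε'0, hε'lt, hcond⟩ :=
    rmf_room (x := (d : ℝ) * e) (F := 2 * ((d : ℝ) * e + 1) * (d * e + 4)) hb0 hε
      (by positivity) h
  obtain ⟨b, hb⟩ : ∃ b : ℝ, b = κS + q * κL := ⟨_, rfl⟩
  rw [← hb] at hcond hb0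
  obtain ⟨δ0, hδ0, n1, hmain⟩ := asymS (d * e) c (b + t) ε' (Nat.mul_pos hd he) (by linarith) hε'0
    (by
      push_cast
      exact hcond)
  obtain ⟨η, hη⟩ : ∃ η : ℝ, η = ε - ε' := ⟨_, rfl⟩
  have hη0 : 0 < η := by linarith
  have hev := ((ev_const (e : ℝ) (δ0 / 2) (by positivity)).and
    (ev_const ((2 : ℝ) ^ q) t ht0)).and ((rmf_log hL hη0).and (Filter.eventually_ge_atTop 1))
  obtain ⟨n2, hn2⟩ := Filter.eventually_atTop.1 hev
  refine ⟨δ0 / 2, by positivity, max n1 n2, fun n hn a NL NS D W r R ha hNL hNS A hV hT hA => ?_⟩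
  obtain ⟨⟨he1, he2⟩, he3, hn1⟩ := hn2 n ((le_max_right _ _).trans hn)
  have hn1r : (1 : ℝ) ≤ n := by exact_mod_cast hn1
  have hn0 : (0 : ℝ) < n := by linarith
  obtain ⟨A', hfew, hdec⟩ := A.simulate he hV hT hA
  have hae : ((a * e : ℕ) : ℝ) ≤ (n : ℝ) ^ δ0 := by
    push_cast
    calc (a : ℝ) * e ≤ (n : ℝ) ^ (δ0 / 2) * (n : ℝ) ^ (δ0 / 2) :=
          mul_le_mul ha he1 (Nat.cast_nonneg _) (by positivity)
      _ = (n : ℝ) ^ δ0 := by rw [← Real.rpow_add hn0]; ring_nf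
  have hnL : 1 ≤ (n : ℝ) ^ κL := Real.one_le_rpow hn1r hL
  have hNL1 : (NL : ℝ) + 1 ≤ 2 * (n : ℝ) ^ κL := by linarith
  have hNL0 : (0 : ℝ) ≤ NL := Nat.cast_nonneg NL
  have hK : ((NS * (NL + 1) ^ q : ℕ) : ℝ) ≤ (n : ℝ) ^ (b + t) := by
    push_cast
    calc (NS : ℝ) * ((NL : ℝ) + 1) ^ q ≤ (n : ℝ) ^ κS * (2 * (n : ℝ) ^ κL) ^ q := by
          apply mul_le_mul hNS _ (by positivity) (by positivity)
          exact pow_le_pow_left₀ (by positivity) hNL1 q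
      _ = ((n : ℝ) ^ κS * (n : ℝ) ^ (κL * q)) * 2 ^ q := by
          rw [mul_pow, ← Real.rpow_natCast ((n : ℝ) ^ κL) q, ← Real.rpow_mul hn0.le]
          ring
      _ ≤ (n : ℝ) ^ b * (n : ℝ) ^ t := by
          apply mul_le_mul _ he2 (by positivity) (by positivity)
          rw [← Real.rpow_add hn0, hb]
          apply le_of_eq
          ring_nf
      _ = (n : ℝ) ^ (b + t) := by rw [← Real.rpow_add hn0]
  have h1 := hmain n ((le_max_left _ _).trans hn) (a * e) (NS * (NL + 1) ^ q) D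
    (W * (NL + 1) ^ r) R hae hK A' hdec hfew
  -- the logarithm of the number of memory states
  have hW := rmf_W_pos A
  have hW1 : (1 : ℝ) ≤ W := by exact_mod_cast hW
  have hlogW : 0 ≤ Real.logb 2 W := Real.logb_nonneg (by norm_num) hW1
  have hr0 : (0 : ℝ) ≤ r := Nat.cast_nonneg r
  have hlog : Real.logb 2 ((W * (NL + 1) ^ r : ℕ) : ℝ) ≤
      Real.logb 2 W + r * (1 + κL * Real.logb 2 n) := by
    have h2 : Real.logb 2 ((NL : ℝ) + 1) ≤ 1 + κL * Real.logb 2 n := by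
      calc Real.logb 2 ((NL : ℝ) + 1) ≤ Real.logb 2 (2 * (n : ℝ) ^ κL) :=
            Real.logb_le_logb_of_le (by norm_num) (by positivity) hNL1
        _ = 1 + κL * Real.logb 2 n := by
            rw [Real.logb_mul (by norm_num) (by positivity),
              Real.logb_rpow_eq_mul_logb_of_pos hn0, Real.logb_self_eq_one (by norm_num)]
    push_cast
    rw [Real.logb_mul (by positivity) (by positivity), Real.logb_pow]
    exact add_le_add le_rfl (mul_le_mul_of_nonneg_left h2 hr0)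
  have hnη : 1 ≤ (n : ℝ) ^ η := Real.one_le_rpow hn1r hη0.le
  have h4 : 1 + Real.logb 2 ((W * (NL + 1) ^ r : ℕ) : ℝ) ≤
      (n : ℝ) ^ η * (1 + r + Real.logb 2 W) := by
    have h5 : (r : ℝ) * (1 + κL * Real.logb 2 n) ≤ r * (n : ℝ) ^ η :=
      mul_le_mul_of_nonneg_left he3 hr0
    have h6 : 1 + Real.logb 2 W ≤ (n : ℝ) ^ η * (1 + Real.logb 2 W) :=
      le_mul_of_one_le_left (by linarith) hnη
    calc 1 + Real.logb 2 ((W * (NL + 1) ^ r : ℕ) : ℝ)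
        ≤ 1 + (Real.logb 2 W + r * (1 + κL * Real.logb 2 n)) := by linarith
      _ ≤ (n : ℝ) ^ η * (1 + Real.logb 2 W) + r * (n : ℝ) ^ η := by linarith
      _ = (n : ℝ) ^ η * (1 + r + Real.logb 2 W) := by ring
  have hD0 : (0 : ℝ) ≤ D := Nat.cast_nonneg D
  have hfin : (n : ℝ) ^ η * (n : ℝ) ^ (3 - ε) ≤
      (n : ℝ) ^ η * (D * (1 + r + Real.logb 2 W)) := by
    calc (n : ℝ) ^ η * (n : ℝ) ^ (3 - ε) = (n : ℝ) ^ (3 - ε') := by
          rw [← Real.rpow_add hn0, hη]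
          ring_nf
      _ ≤ D * (1 + Real.logb 2 ((W * (NL + 1) ^ r : ℕ) : ℝ)) := h1
      _ ≤ D * ((n : ℝ) ^ η * (1 + r + Real.logb 2 W)) := mul_le_mul_of_nonneg_left h4 hD0
      _ = (n : ℝ) ^ η * (D * (1 + r + Real.logb 2 W)) := by ring
  exact le_of_mul_le_mul_left hfin (by positivity)

/-- Small memory, without restriction of the vocabulary. -/
theorem asym_small (d e q c : ℕ) (w σ ε : ℝ) (hd : 1 ≤ d) (he : 1 ≤ e) (hw : 0 ≤ w)
    (hσ : 0 ≤ σ) (hε : 0 < ε)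
    (h : ((3 + w) + q * (3 + w + σ)) * (d * e * (2 / ε + 3) + 1) +
      2 * (d * e + 1) * (d * e + 4) < c) :
    ∃ δ : ℝ, 0 < δ ∧ ∃ n₀ : ℕ, ∀ n : ℕ, n₀ ≤ n → ∀ a D W r R : ℕ,
      (a : ℝ) ≤ (n : ℝ) ^ δ → (W : ℝ) ≤ (n : ℝ) ^ w → (r : ℝ) ≤ (n : ℝ) ^ σ →
      ∀ A : Mach n d a e D W r R, A.Touch q → A.DecidesC c →
        (n : ℝ) ^ (3 - ε) ≤ D * (1 + r) := by
  have hq0 : (0 : ℝ) ≤ q := Nat.cast_nonneg q
  have hb0 : 0 ≤ (3 + w) + q * (3 + w + σ) := by positivity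
  obtain ⟨t, ε', ht0, hε'0, hε'lt, hcond⟩ :=
    rmf_room (x := (d : ℝ) * e) (F := 2 * ((d : ℝ) * e + 1) * (d * e + 4)) hb0 hε
      (by positivity) h
  have hcond' : ((3 + w) + q * (3 + w + σ)) * (d * e * (2 / ε' + 3) + 1) +
      2 * (d * e + 1) * (d * e + 4) < c := by
    have h0 : (0 : ℝ) ≤ (d : ℝ) * e * (2 / ε' + 3) + 1 := by positivity
    have h1 := mul_nonneg ht0.le h0
    linarith
  obtain ⟨δ, hδ, n1, hmain⟩ := asym_reg d e q c (3 + w + σ) (3 + w) ε' hd he (by linarith)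
    (by linarith) hε'0 hcond'
  obtain ⟨η, hη⟩ : ∃ η : ℝ, η = ε - ε' := ⟨_, rfl⟩
  have hη0 : 0 < η := by linarith
  obtain ⟨n2, hn2⟩ := Filter.eventually_atTop.1
    ((rmf_log hw hη0).and (Filter.eventually_ge_atTop 1))
  refine ⟨δ, hδ, max n1 n2, fun n hn a D W r R ha hW hr A hT hA => ?_⟩
  obtain ⟨hlog, hn1⟩ := hn2 n ((le_max_right _ _).trans hn)
  have hn1r : (1 : ℝ) ≤ n := by exact_mod_cast hn1
  have hn0r : (0 : ℝ) < n := by linarith
  have hD0 : (0 : ℝ) ≤ D := Nat.cast_nonneg D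
  have hr0 : (0 : ℝ) ≤ r := Nat.cast_nonneg r
  have hWpos := rmf_W_pos A
  have hW1 : (1 : ℝ) ≤ W := by exact_mod_cast hWpos
  have hW0 : (0 : ℝ) ≤ W := by linarith
  rcases Nat.lt_or_ge (n ^ 3) D with hD | hD
  · calc (n : ℝ) ^ (3 - ε) ≤ (n : ℝ) ^ (3 : ℝ) :=
          Real.rpow_le_rpow_of_exponent_le hn1r (by linarith)
      _ = ((n ^ 3 : ℕ) : ℝ) := by
          push_cast
          norm_cast
      _ ≤ D := by exact_mod_cast hD.le
      _ ≤ D * (1 + r) := le_mul_of_one_le_right hD0 (by linarith)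
  · have hDr : (D : ℝ) ≤ (n : ℝ) ^ (3 : ℝ) := by
      have h2 : (D : ℝ) ≤ ((n ^ 3 : ℕ) : ℝ) := by exact_mod_cast hD
      refine h2.trans (le_of_eq ?_)
      push_cast
      norm_cast
    have hDW : (D : ℝ) * W ≤ (n : ℝ) ^ (3 + w) := by
      rw [Real.rpow_add hn0r]
      exact mul_le_mul hDr hW hW0 (by positivity)
    have hNS : ((D * W : ℕ) : ℝ) ≤ (n : ℝ) ^ (3 + w) := by
      push_cast
      exact hDW
    have hNL : ((D * W * r : ℕ) : ℝ) ≤ (n : ℝ) ^ (3 + w + σ) := by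
      push_cast
      calc (D : ℝ) * W * r ≤ (n : ℝ) ^ (3 + w) * (n : ℝ) ^ σ :=
            mul_le_mul hDW hr hr0 (by positivity)
        _ = (n : ℝ) ^ (3 + w + σ) := by rw [← Real.rpow_add hn0r]
    have h1 := hmain n ((le_max_left _ _).trans hn) a (D * W * r) (D * W) D W r R ha hNL hNS A
      A.vocab_trivial hT hA
    have hlogn : 0 ≤ Real.logb 2 n := Real.logb_nonneg (by norm_num) hn1r
    have hlogW : Real.logb 2 W ≤ w * Real.logb 2 n := by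
      calc Real.logb 2 W ≤ Real.logb 2 ((n : ℝ) ^ w) :=
            Real.logb_le_logb_of_le (by norm_num) (by linarith) hW
        _ = w * Real.logb 2 n := Real.logb_rpow_eq_mul_logb_of_pos hn0r
    have hnη : 1 ≤ (n : ℝ) ^ η := Real.one_le_rpow hn1r hη0.le
    have h4 : 1 + r + Real.logb 2 W ≤ (n : ℝ) ^ η * (1 + r) := by
      have h5 : (r : ℝ) ≤ (n : ℝ) ^ η * r := le_mul_of_one_le_left hr0 hnη
      calc 1 + r + Real.logb 2 W ≤ (1 + w * Real.logb 2 n) + r := by linarith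
        _ ≤ (n : ℝ) ^ η + (n : ℝ) ^ η * r := by linarith
        _ = (n : ℝ) ^ η * (1 + r) := by ring
    have hfin : (n : ℝ) ^ η * (n : ℝ) ^ (3 - ε) ≤ (n : ℝ) ^ η * (D * (1 + r)) := by
      calc (n : ℝ) ^ η * (n : ℝ) ^ (3 - ε) = (n : ℝ) ^ (3 - ε') := by
            rw [← Real.rpow_add hn0r, hη]
            ring_nf
        _ ≤ D * (1 + r + Real.logb 2 W) := h1
        _ ≤ D * ((n : ℝ) ^ η * (1 + r)) := mul_le_mul_of_nonneg_left h4 hD0
        _ = (n : ℝ) ^ η * (D * (1 + r)) := by ring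
    exact le_of_mul_le_mul_left hfin (by positivity)

end Pool.Agent.Helper21.RM
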