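import Mathlib
import Pool.Agent.Helper22.ETModel
import Pool.Agent.Helper8.PQ.Model

/-!
# Real register machines with little memory

Definitions only.
-/

set_option autoImplicit false

namespace Pool.Agent.Helper21.RM

open Pool.Agent.Helper22.ETModel
open Pool.Agent.Helper8.PQ (ValidC)

variable {n d a e D W r R : ℕ}

/-- The polynomials in all the weights and all the registers. -/
abbrev RPoly (n r : ℕ) := MvPolynomial ((Fin n × Fin n) ⊕ Fin r) ℝ

/-- The queries: `sign f` asks for the sign of a real polynomial `f` of total degree at most `d` in
all the weights and all the registers; `zero f` is a zero test of a real polynomial `f` of total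
degree at most `a` in all the weights and all the registers. -/
inductive MQ (n d a r : ℕ)
  | sign (f : RPoly n r) (hf : f.totalDegree ≤ d)
  | zero (f : RPoly n r) (hf : f.totalDegree ≤ a)

/-- The value of a polynomial, when `x` are the contents of the registers. -/
noncomputable def RPoly.val (f : RPoly n r) (I : Inst n) (x : Fin r → ℝ) : ℝ :=
  MvPolynomial.eval (Sum.elim (fun p : Fin n × Fin n => (I.wt p.1 p.2 : ℝ)) x) f

open Classical in
/-- The answer of a query. The answer of a zero test is `0` if the polynomial vanishes and `1`
otherwise. -/
noncomputable def MQ.ans (Q : MQ n d a r) (I : Inst n) (x : Fin r → ℝ) : SignType :=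
  match Q with
  | .sign f _ => SignType.sign (f.val I x)
  | .zero f _ => if f.val I x = 0 then 0 else 1

/-- The real polynomials of total degree at most `e` in all the weights. -/
abbrev WPoly (n e : ℕ) := {f : MvPolynomial (Fin n × Fin n) ℝ // f.totalDegree ≤ e}

/-- The new content of a register: the old content of some register, or the value of a
polynomial. -/
noncomputable def load (I : Inst n) (x : Fin r → ℝ) : Fin r ⊕ WPoly n e → ℝ
  | .inl i => x i
  | .inr f => MvPolynomial.eval (fun p : Fin n × Fin n => (I.wt p.1 p.2 : ℝ)) f.1

/-- A randomized adaptive machine on `n`-vertex instances with `W` memory states and `r` real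
registers, which makes `D` steps. In every step all registers are rewritten: the new content of a
register is the old content of a register or the value of a real polynomial of total degree at most
`e` in all the weights; then one query is asked. Everything may depend in an arbitrary way on the
flags, the random bits, the time and the current memory state. -/
structure Mach (n d a e D W r R : ℕ) where
  init : (Fin n → Fin n → Bool) → (Fin R → Bool) → Fin W
  upd : (Fin n → Fin n → Bool) → (Fin R → Bool) → ℕ → Fin W → Fin r → Fin r ⊕ WPoly n e
  ask : (Fin n → Fin n → Bool) → (Fin R → Bool) → ℕ → Fin W → MQ n d a r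
  next : (Fin n → Fin n → Bool) → (Fin R → Bool) → ℕ → Fin W → SignType → Fin W
  out : (Fin n → Fin n → Bool) → (Fin R → Bool) → Fin W → Bool

/-- The memory state and the contents of the registers after `t` steps. In the beginning all
registers contain `0`. -/
noncomputable def Mach.conf (A : Mach n d a e D W r R) (I : Inst n) (ρ : Fin R → Bool) :
    ℕ → Fin W × (Fin r → ℝ)
  | 0 => (A.init I.flag ρ, fun _ => 0)
  | t + 1 =>
    let v := (A.conf I ρ t).1
    let x : Fin r → ℝ := fun i => load I (A.conf I ρ t).2 (A.upd I.flag ρ t v i)
    (A.next I.flag ρ t v ((A.ask I.flag ρ t v).ans I x), x)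

/-- The output after `D` steps. -/
noncomputable def Mach.output (A : Mach n d a e D W r R) (I : Inst n) (ρ : Fin R → Bool) :
    Bool :=
  A.out I.flag ρ (A.conf I ρ D).1

open Classical in
/-- The machine decides Exact Triangle for weights in `[-n ^ c, n ^ c]` with bounded error: on
every such valid instance the output is correct with probability at least `2/3` over the random
bits. -/
def Mach.DecidesC (A : Mach n d a e D W r R) (c : ℕ) : Prop :=
  ∀ I : Inst n, ValidC c I →
    2 * 2 ^ R ≤
      3 * (Finset.univ.filter fun ρ : Fin R → Bool => (A.output I ρ = true ↔ I.Yes)).card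

open Classical in
/-- The registers that occur in a polynomial. -/
noncomputable def RPoly.regs (f : RPoly n r) : Finset (Fin r) :=
  Finset.univ.filter fun i => Sum.inr i ∈ f.vars

/-- At most `q` registers occur in every sign query. -/
def Mach.Touch (A : Mach n d a e D W r R) (q : ℕ) : Prop :=
  ∀ fl ρ t v f hf, t < D → A.ask fl ρ t v = .sign f hf → f.regs.card ≤ q

/-- For all flags and random bits: at all times and in all memory states together at most `NL`
different polynomials are loaded into registers, and at most `NS` different sign queries are asked.
(There is no such condition for zero tests.) -/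
structure Mach.Vocab (A : Mach n d a e D W r R) (NL NS : ℕ) : Prop where
  load : ∀ fl ρ, ∃ S : Finset (MvPolynomial (Fin n × Fin n) ℝ), S.card ≤ NL ∧
    ∀ t v i f, t < D → A.upd fl ρ t v i = Sum.inr f → f.1 ∈ S
  sign : ∀ fl ρ, ∃ S : Finset (RPoly n r), S.card ≤ NS ∧
    ∀ t v f hf, t < D → A.ask fl ρ t v = .sign f hf → f ∈ S

end Pool.Agent.Helper21.RM
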