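import Mathlib
import Pool.Agent.Helper22.ETModel
import Pool.Agent.Helper8.PQ.Model
import Pool.Agent.Helper21.RM.Model
import Pool.Agent.Helper21.RM.Final

/-!
# Exact Triangle: time times space is at least `n ^ (3 - ε)` for signs of dense polynomials

The model (file `Pool/Agent/Helper21/RM/Model.lean`): a randomized machine with `W` memory
states and `r` real registers makes `D` steps. The flags, the random bits and the time are known
for free. In every step all registers are rewritten (the new content of a register is the old
content of a register, or the value of a real polynomial of degree at most `e` in all the weights),
and then one query is asked: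

* the sign (negative, zero, positive) of a real polynomial of degree at most `d` in all the weights
  and in at most `q` registers;
* a zero test of a real polynomial of degree at most `a` in all the weights and all the registers.

Which polynomials are loaded and asked, the next memory state and the output depend in an arbitrary
way on the flags, the random bits, the time, the memory state (and the answer). The polynomials are
dense: all their coefficients may be arbitrary real numbers.

Theorem, part 1. Let `d`, `e`, `q`, `κL`, `κS`, `ε` be constants, and let the weights be integers in
`[-n ^ c, n ^ c]`, where `c` is larger than
`(κS + q κL) (d e (2 / ε + 3) + 1) + 2 (d e + 1) (d e + 4)`. Then there is `δ > 0` such that for all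
large `n`: if a machine decides Exact Triangle with probability at least `2/3`, with
`a ≤ n ^ δ`, and if for fixed flags and random bits at most `n ^ κS` different sign queries and at
most `n ^ κL` different loads are possible, then `D (1 + r + log W) ≥ n ^ (3 - ε)`. There is no
bound on the memory and on the number of registers, and no condition on the zero tests besides
their degree.

Part 2 (consequence). If `W ≤ n ^ w` and `r ≤ n ^ σ`, then these two numbers are bounded
automatically, and `D (1 + r) ≥ n ^ (3 - ε)`.

For `c = 300` the valid instances are those of the problem. Zero tests of degree one contain the
tests whether a given triangle has weight zero, so that `n ^ 3` steps suffice with two memory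
states. Without a bound on the memory and on the number of different sign queries, `n ^ (2 + o(1))`
sign queries of degree one are sufficient.

Idea of the proof. The registers are simulated by memory states. The instance contains `n / 3`
hidden instances of element distinctness. Every element has `k` random digits, and its weight is a
sum of separated parts, one for each level `i`, the part of level `i` being a random number (mask)
which depends only on the first `i + 1` digits, and of random noise on the lowest scale. Moreover a
random half of the elements is deleted: these elements get independent random weights on a much
larger scale. For a given polynomial an element is called pivotal if it is not deleted and if its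
deletion would increase the maximal magnitude of the monomials. An exponential moment shows that a
polynomial of degree `d` has few pivotal elements except with very small probability, and because
of anticoncentration the sign is determined by the deleted elements and the pivotal elements; and the
weight of a pivotal element can be cut off after the level on which it has no mate (a pivotal element
with the same first digits). As there are at most a power of `n` different sign queries, all this
holds for all of them simultaneously. Zero tests are answered positively only if the polynomial
vanishes identically on the space of the noise, or, for a planted zero triangle, on the hyperplane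
where two elements are equal. The number of elements which have mates on level `i` in a window of
the computation is bounded by an exponential supermartingale, for all starting states
simultaneously, and recursively over longer and longer windows. At the end, a change that turns the
instance into a yes-instance is noticed only if an element has a mate on all levels.
-/

set_option autoImplicit false

namespace Pool.Agent.Helper21.RM.Draft

open Pool.Agent.Helper21.RM

/-- Exact Triangle with signs of dense polynomials, real registers and dense zero tests: the
product of the number of steps and the space is almost cubic. -/
theorem result :
    (∀ (d e q c : ℕ) (κL κS ε : ℝ), 1 ≤ d → 1 ≤ e → 0 ≤ κL → 0 ≤ κS → 0 < ε →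
      (κS + q * κL) * (d * e * (2 / ε + 3) + 1) + 2 * (d * e + 1) * (d * e + 4) < c →
      ∃ δ : ℝ, 0 < δ ∧ ∃ n₀ : ℕ, ∀ n : ℕ, n₀ ≤ n → ∀ a NL NS D W r R : ℕ,
        (a : ℝ) ≤ (n : ℝ) ^ δ → (NL : ℝ) ≤ (n : ℝ) ^ κL → (NS : ℝ) ≤ (n : ℝ) ^ κS →
        ∀ A : Mach n d a e D W r R, A.Vocab NL NS → A.Touch q → A.DecidesC c →
          (n : ℝ) ^ (3 - ε) ≤ D * (1 + r + Real.logb 2 W)) ∧
    (∀ (d e q c : ℕ) (w σ ε : ℝ), 1 ≤ d → 1 ≤ e → 0 ≤ w → 0 ≤ σ → 0 < ε →
      ((3 + w) + q * (3 + w + σ)) * (d * e * (2 / ε + 3) + 1) +
        2 * (d * e + 1) * (d * e + 4) < c →
      ∃ δ : ℝ, 0 < δ ∧ ∃ n₀ : ℕ, ∀ n : ℕ, n₀ ≤ n → ∀ a D W r R : ℕ,
        (a : ℝ) ≤ (n : ℝ) ^ δ → (W : ℝ) ≤ (n : ℝ) ^ w → (r : ℝ) ≤ (n : ℝ) ^ σ →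
        ∀ A : Mach n d a e D W r R, A.Touch q → A.DecidesC c →
          (n : ℝ) ^ (3 - ε) ≤ D * (1 + r)) :=
  ⟨fun d e q c κL κS ε hd he hL hS hε h => asym_reg d e q c κL κS ε hd he hL hS hε h,
    fun d e q c w σ ε hd he hw hσ hε h => asym_small d e q c w σ ε hd he hw hσ hε h⟩

end Pool.Agent.Helper21.RM.Draft
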