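import Pool.Agent.Helper21.RM.Model
import Pool.Agent.Helper8.PQ.Defs
import Pool.Agent.Helper8.ZT.RegSim

/-!
# Registers are simulated by memory states
-/

set_option autoImplicit false

namespace Pool.Agent.Helper21.RM

open Finset
open Pool.Agent.Helper22.ETModel Pool.Agent.Helper22.TSModel Pool.Agent.Helper22.EP
open Pool.Agent.Helper8.ZT (totalDegree_aeval_mul_le)
open Pool.Agent.Helper8.PQ (PolQ polFam FewSigns ValidC)

variable {n d a e D W r R : ℕ}

/-- The polynomial with a given number in the vocabulary. -/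
private noncomputable def smOf {NL : ℕ} (voc : Fin NL → WPoly n e) (c : Option (Fin NL)) :
    MvPolynomial (Fin n × Fin n) ℝ :=
  c.elim 0 fun i => (voc i).1

private lemma sm_deg {NL : ℕ} (voc : Fin NL → WPoly n e) (c : Option (Fin NL)) :
    (smOf voc c).totalDegree ≤ e := by
  cases c with
  | none => simp [smOf]
  | some i => exact (voc i).2

/-- The substitution of the registers. -/
private noncomputable def smSub {NL : ℕ} (voc : Fin NL → WPoly n e)
    (c : Fin r → Option (Fin NL)) (f : RPoly n r) : MvPolynomial (Fin n × Fin n) ℝ :=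
  MvPolynomial.aeval (Sum.elim MvPolynomial.X fun i => smOf voc (c i)) f

private lemma sm_sub_deg {NL : ℕ} (he : 1 ≤ e) (voc : Fin NL → WPoly n e)
    (c : Fin r → Option (Fin NL)) (f : RPoly n r) {d : ℕ} (hf : f.totalDegree ≤ d) :
    (smSub voc c f).totalDegree ≤ d * e := by
  refine (totalDegree_aeval_mul_le _ ?_ f).trans (Nat.mul_le_mul_right _ hf)
  rintro (p | i)
  · show (MvPolynomial.X p : MvPolynomial (Fin n × Fin n) ℝ).totalDegree ≤ e
    rw [MvPolynomial.totalDegree_X]
    exact he
  · exact sm_deg voc (c i)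

private lemma sm_eval {NL : ℕ} (voc : Fin NL → WPoly n e) (c : Fin r → Option (Fin NL))
    (I : Inst n) (x : Fin r → ℝ) (hx : ∀ i, evalP (smOf voc (c i)) I = x i) (f : RPoly n r) :
    evalP (smSub voc c f) I = f.val I x := by
  unfold evalP smSub RPoly.val
  rw [eval_aeval]
  congr 2
  funext y
  rcases y with p | i
  · show MvPolynomial.eval _ (MvPolynomial.X p) = (I.wt p.1 p.2 : ℝ)
    rw [MvPolynomial.eval_X]
  · exact hx i

/-- Only the contents of the registers that occur matter. -/
private lemma sm_congr {NL : ℕ} (voc : Fin NL → WPoly n e) {c c' : Fin r → Option (Fin NL)}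
    (f : RPoly n r) (h : ∀ i ∈ f.regs, c i = c' i) : smSub voc c f = smSub voc c' f := by
  classical
  unfold smSub
  rw [MvPolynomial.aeval_def, MvPolynomial.aeval_def]
  apply MvPolynomial.eval₂_congr
  intro y μ hy hμ
  rcases y with p | i
  · rfl
  · show smOf voc (c i) = smOf voc (c' i)
    rw [h i]
    unfold RPoly.regs
    rw [mem_filter]
    refine ⟨mem_univ _, ?_⟩
    rw [MvPolynomial.mem_vars_iff_mem_support]
    exact ⟨μ, by rwa [MvPolynomial.mem_support_iff], hy⟩

/-- The query after the substitution of the registers. -/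
private noncomputable def smTr {NL : ℕ} (he : 1 ≤ e) (voc : Fin NL → WPoly n e)
    (c : Fin r → Option (Fin NL)) : MQ n d a r → PolQ n (d * e) (a * e)
  | .sign f hf => .sign (smSub voc c f) (sm_sub_deg he voc c f hf)
  | .zero f hf => .zero (smSub voc c f) (sm_sub_deg he voc c f hf)

private lemma sm_ans {NL : ℕ} (he : 1 ≤ e) (voc : Fin NL → WPoly n e)
    (c : Fin r → Option (Fin NL)) (Q : MQ n d a r) (I : Inst n) (x : Fin r → ℝ)
    (hx : ∀ i, evalP (smOf voc (c i)) I = x i) :
    (polFam n (d * e) (a * e)).ans (smTr he voc c Q) I = Q.ans I x := by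
  cases Q with
  | sign f hf =>
    show SignType.sign (evalP (smSub voc c f) I) = SignType.sign (f.val I x)
    rw [sm_eval voc c I x hx f]
  | zero f hf =>
    show (if evalP (smSub voc c f) I = 0 then (0 : SignType) else 1) =
      if f.val I x = 0 then 0 else 1
    rw [sm_eval voc c I x hx f]

/-- A numbering of a small set of polynomials. -/
private lemma sm_voc (NL : ℕ) (S : Finset (MvPolynomial (Fin n × Fin n) ℝ)) (hS : S.card ≤ NL) :
    ∃ voc : Fin NL → WPoly n e, ∀ f : WPoly n e, f.1 ∈ S → ∃ i, (voc i).1 = f.1 := by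
  classical
  refine ⟨fun i => if h : ∃ h : i.val < S.card,
      ((S.equivFin.symm ⟨i.val, h⟩ : S).val).totalDegree ≤ e
    then ⟨(S.equivFin.symm ⟨i.val, h.1⟩ : S).val, h.2⟩ else ⟨0, by simp⟩, fun f hf => ?_⟩
  have hlt : (S.equivFin ⟨f.1, hf⟩).val < S.card := (S.equivFin ⟨f.1, hf⟩).isLt
  refine ⟨⟨(S.equivFin ⟨f.1, hf⟩).val, by omega⟩, ?_⟩
  have h1 : (S.equivFin.symm ⟨(S.equivFin ⟨f.1, hf⟩).val, hlt⟩ : S) = ⟨f.1, hf⟩ := by
    have : (⟨(S.equivFin ⟨f.1, hf⟩).val, hlt⟩ : Fin S.card) = S.equivFin ⟨f.1, hf⟩ := rfl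
    rw [this, Equiv.symm_apply_apply]
  simp only
  rw [dif_pos ⟨hlt, by rw [h1]; exact f.2⟩]
  simp only
  rw [h1]

/-- Memory states with the numbers of the contents of the registers. -/
private abbrev VS (W r NL : ℕ) := Fin W × (Fin r → Option (Fin NL))

open Classical in
/-- The number of a polynomial. -/
private noncomputable def smNum {NL : ℕ} (voc : Fin NL → WPoly n e) (f : WPoly n e) :
    Option (Fin NL) := if h : ∃ i, (voc i).1 = f.1 then some h.choose else none

private lemma sm_num {NL : ℕ} (voc : Fin NL → WPoly n e) (f : WPoly n e)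
    (h : ∃ i, (voc i).1 = f.1) : smOf voc (smNum voc f) = f.1 := by
  unfold smNum smOf
  rw [dif_pos h]
  exact h.choose_spec

/-- The numbers of the contents of the registers after they are rewritten. -/
private noncomputable def smRcd {NL : ℕ} (A : Mach n d a e D W r R) (voc : Fin NL → WPoly n e)
    (fl : Fin n → Fin n → Bool) (ρ : Fin R → Bool) (t : ℕ) (s : VS W r NL) :
    Fin r → Option (Fin NL) := fun i =>
  match A.upd fl ρ t s.1 i with
  | .inl j => s.2 j
  | .inr f => smNum voc f

/-- The simulation. -/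
private noncomputable def smA {NL : ℕ} (he : 1 ≤ e) (A : Mach n d a e D W r R)
    (voc : (Fin n → Fin n → Bool) → (Fin R → Bool) → Fin NL → WPoly n e)
    (E : VS W r NL ≃ Fin (W * (NL + 1) ^ r)) :
    Alg n D (W * (NL + 1) ^ r) R (PolQ n (d * e) (a * e)) SignType where
  init fl ρ := E (A.init fl ρ, fun _ => none)
  ask fl ρ t s := smTr he (voc fl ρ) (smRcd A (voc fl ρ) fl ρ t (E.symm s))
    (A.ask fl ρ t (E.symm s).1)
  next fl ρ t s x := E (A.next fl ρ t (E.symm s).1 x, smRcd A (voc fl ρ) fl ρ t (E.symm s))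
  out fl ρ s := A.out fl ρ (E.symm s).1

private lemma sm_rec {NL : ℕ} (A : Mach n d a e D W r R) (voc : Fin NL → WPoly n e)
    (I : Inst n) (ρ : Fin R → Bool) (t : ℕ)
    (hvoc : ∀ v i f, A.upd I.flag ρ t v i = Sum.inr f → ∃ j, (voc j).1 = f.1)
    (s : VS W r NL) (x : Fin r → ℝ) (hx : ∀ i, evalP (smOf voc (s.2 i)) I = x i)
    (i : Fin r) :
    evalP (smOf voc (smRcd A voc I.flag ρ t s i)) I = load I x (A.upd I.flag ρ t s.1 i) := by
  unfold smRcd
  rcases hu : A.upd I.flag ρ t s.1 i with j | f
  · exact hx j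
  · show evalP (smOf voc (smNum voc f)) I = _
    rw [sm_num voc f (hvoc s.1 i f hu)]
    rfl

private lemma sm_state {NL : ℕ} (he : 1 ≤ e) (A : Mach n d a e D W r R)
    (voc : (Fin n → Fin n → Bool) → (Fin R → Bool) → Fin NL → WPoly n e)
    (hvoc : ∀ fl ρ t v i f, t < D → A.upd fl ρ t v i = Sum.inr f → ∃ j, (voc fl ρ j).1 = f.1)
    (E : VS W r NL ≃ Fin (W * (NL + 1) ^ r)) (I : Inst n)
    (ρ : Fin R → Bool) (t : ℕ) (ht : t ≤ D) :
    (E.symm ((smA he A voc E).state (polFam n (d * e) (a * e)) I ρ t)).1 = (A.conf I ρ t).1 ∧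
    ∀ i, evalP (smOf (voc I.flag ρ)
      ((E.symm ((smA he A voc E).state (polFam n (d * e) (a * e)) I ρ t)).2 i)) I =
      (A.conf I ρ t).2 i := by
  induction t with
  | zero =>
    have h1 : (smA he A voc E).state (polFam n (d * e) (a * e)) I ρ 0 =
        E (A.init I.flag ρ, fun _ => none) := rfl
    rw [h1, Equiv.symm_apply_apply]
    refine ⟨rfl, fun i => ?_⟩
    show evalP (0 : MvPolynomial (Fin n × Fin n) ℝ) I = 0
    unfold evalP
    rw [map_zero]
  | succ t ih =>
    obtain ⟨ih1, ih2⟩ := ih (by omega)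
    set s := E.symm ((smA he A voc E).state (polFam n (d * e) (a * e)) I ρ t) with hs
    have hr := sm_rec A (voc I.flag ρ) I ρ t
      (fun v i f h => hvoc I.flag ρ t v i f (by omega) h) s (A.conf I ρ t).2 ih2
    have hans := sm_ans he (voc I.flag ρ) (smRcd A (voc I.flag ρ) I.flag ρ t s)
      (A.ask I.flag ρ t s.1) I (fun i => load I (A.conf I ρ t).2 (A.upd I.flag ρ t s.1 i)) hr
    have h1 : (smA he A voc E).state (polFam n (d * e) (a * e)) I ρ (t + 1) =
        E (A.next I.flag ρ t s.1 ((A.ask I.flag ρ t s.1).ans I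
          (fun i => load I (A.conf I ρ t).2 (A.upd I.flag ρ t s.1 i))),
          smRcd A (voc I.flag ρ) I.flag ρ t s) := by
      rw [← hans]
      rfl
    have h2 : A.conf I ρ (t + 1) = (A.next I.flag ρ t s.1 ((A.ask I.flag ρ t s.1).ans I
          (fun i => load I (A.conf I ρ t).2 (A.upd I.flag ρ t s.1 i))),
          fun i => load I (A.conf I ρ t).2 (A.upd I.flag ρ t s.1 i)) := by
      rw [ih1]
      rfl
    rw [h1, Equiv.symm_apply_apply, h2]
    exact ⟨rfl, hr⟩

private lemma sm_output {NL : ℕ} (he : 1 ≤ e) (A : Mach n d a e D W r R)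
    (voc : (Fin n → Fin n → Bool) → (Fin R → Bool) → Fin NL → WPoly n e)
    (hvoc : ∀ fl ρ t v i f, t < D → A.upd fl ρ t v i = Sum.inr f → ∃ j, (voc fl ρ j).1 = f.1)
    (E : VS W r NL ≃ Fin (W * (NL + 1) ^ r)) (I : Inst n) (ρ : Fin R → Bool) :
    (smA he A voc E).output (polFam n (d * e) (a * e)) I ρ = A.output I ρ := by
  show A.out I.flag ρ (E.symm ((smA he A voc E).state (polFam n (d * e) (a * e)) I ρ D)).1 = _
  rw [(sm_state he A voc hvoc E I ρ D le_rfl).1]
  rfl

/-- Contents outside a set forgotten. -/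
private def forget {NL : ℕ} (T : Finset (Fin r)) (c : Fin r → Option (Fin NL)) :
    Fin r → Option (Fin NL) := fun i => if i ∈ T then c i else none

open Classical in
private lemma card_forget {NL : ℕ} (T : Finset (Fin r)) :
    ((univ : Finset (Fin r → Option (Fin NL))).image (forget T)).card ≤ (NL + 1) ^ T.card := by
  have h1 : ((univ : Finset (Fin r → Option (Fin NL))).image (forget T)) ⊆
      Fintype.piFinset fun i => if i ∈ T then (univ : Finset (Option (Fin NL))) else {none} := by
    intro c hc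
    rw [mem_image] at hc
    obtain ⟨c', -, rfl⟩ := hc
    rw [Fintype.mem_piFinset]
    intro i
    unfold forget
    by_cases hi : i ∈ T
    · rw [if_pos hi, if_pos hi]
      exact mem_univ _
    · rw [if_neg hi, if_neg hi]
      exact mem_singleton_self _
  refine (card_le_card h1).trans (le_of_eq ?_)
  rw [Fintype.card_piFinset]
  have h2 : ∀ i : Fin r, (if i ∈ T then (univ : Finset (Option (Fin NL))) else {none}).card =
      if i ∈ T then NL + 1 else 1 := by
    intro i
    by_cases hi : i ∈ T
    · rw [if_pos hi, if_pos hi, card_univ]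
      simp
    · rw [if_neg hi, if_neg hi, card_singleton]
  rw [prod_congr rfl fun i _ => h2 i, prod_ite, prod_const, prod_const_one, mul_one]
  congr 2
  ext i
  simp

open Classical in
/-- A machine with registers is simulated by an algorithm without registers. The contents of the
registers are polynomials from the vocabulary, or zero at the beginning, and are part of the memory
state. The polynomials in the sign queries are determined by the query of `A` and the contents of
the at most `q` registers that occur. -/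
theorem Mach.simulate {NL NS q c : ℕ} (A : Mach n d a e D W r R) (he : 1 ≤ e)
    (hV : A.Vocab NL NS) (hT : A.Touch q) (hA : A.DecidesC c) :
    ∃ A' : Alg n D (W * (NL + 1) ^ r) R (PolQ n (d * e) (a * e)) SignType,
      FewSigns A' (NS * (NL + 1) ^ q) ∧
        Pool.Agent.Helper8.PQ.DecidesC A' (polFam n (d * e) (a * e)) c := by
  have hex : ∀ (fl : Fin n → Fin n → Bool) (ρ : Fin R → Bool), ∃ voc : Fin NL → WPoly n e,
      ∀ t v i f, t < D → A.upd fl ρ t v i = Sum.inr f → ∃ j, (voc j).1 = f.1 := by
    intro fl ρ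
    obtain ⟨S, hS, h1⟩ := hV.load fl ρ
    obtain ⟨voc, h2⟩ := sm_voc (e := e) NL S hS
    exact ⟨voc, fun t v i f ht h => h2 f (h1 t v i f ht h)⟩
  choose voc hvoc using hex
  have hcard : Fintype.card (VS W r NL) = W * (NL + 1) ^ r := by
    simp [VS]
  have E : VS W r NL ≃ Fin (W * (NL + 1) ^ r) := Fintype.equivFinOfCardEq hcard
  refine ⟨smA he A voc E, ?_, fun I hI => ?_⟩
  · intro fl ρ
    obtain ⟨S, hS, h1⟩ := hV.sign fl ρ
    set S' := S.filter fun f => f.regs.card ≤ q with hS'
    set P := S'.biUnion fun f => ((univ : Finset (Fin r → Option (Fin NL))).image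
      (forget f.regs)).image fun c => smSub (voc fl ρ) c f with hP
    have hPc : P.card ≤ NS * (NL + 1) ^ q := by
      refine card_biUnion_le.trans ?_
      refine (sum_le_sum (g := fun _ => (NL + 1) ^ q) fun f hf => ?_).trans ?_
      · refine card_image_le.trans ((card_forget f.regs).trans ?_)
        exact Nat.pow_le_pow_right (Nat.succ_pos _) (mem_filter.1 hf).2
      · rw [sum_const, smul_eq_mul]
        exact Nat.mul_le_mul_right _ ((card_filter_le _ _).trans hS)
    have hPm : ∀ t v f hf, t < D → A.ask fl ρ t v = .sign f hf →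
        ∀ c : Fin r → Option (Fin NL), smSub (voc fl ρ) c f ∈ P := by
      intro t v f hf ht hq c
      have h2 := h1 t v f hf ht hq
      have h3 := hT fl ρ t v f hf ht hq
      rw [hP, mem_biUnion]
      refine ⟨f, mem_filter.2 ⟨h2, h3⟩, ?_⟩
      rw [mem_image]
      refine ⟨forget f.regs c, mem_image_of_mem _ (mem_univ c), ?_⟩
      apply sm_congr
      intro i hi
      unfold forget
      rw [if_pos hi]
    refine ⟨fun i => if h : i.val < P.card then (P.equivFin.symm ⟨i.val, h⟩ : P).val else 0, ?_⟩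
    intro t ht v f hf hq
    have h2 : f ∈ P := by
      have h3 : (smA he A voc E).ask fl ρ t v = smTr he (voc fl ρ)
        (smRcd A (voc fl ρ) fl ρ t (E.symm v)) (A.ask fl ρ t (E.symm v).1) := rfl
      rw [h3] at hq
      cases hask : A.ask fl ρ t (E.symm v).1 with
      | sign g hg =>
        rw [hask] at hq
        have h4 : smSub (voc fl ρ) (smRcd A (voc fl ρ) fl ρ t (E.symm v)) g = f := by
          injection hq
        rw [← h4]
        exact hPm t (E.symm v).1 g hg ht hask _
      | zero g hg =>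
        rw [hask] at hq
        exact absurd hq (by
          intro h5
          cases h5)
    have hlt : (P.equivFin ⟨f, h2⟩).val < P.card := (P.equivFin ⟨f, h2⟩).isLt
    refine ⟨⟨(P.equivFin ⟨f, h2⟩).val, lt_of_lt_of_le hlt hPc⟩, ?_⟩
    simp only
    rw [dif_pos hlt]
    have : (⟨(P.equivFin ⟨f, h2⟩).val, hlt⟩ : Fin P.card) = P.equivFin ⟨f, h2⟩ := rfl
    rw [this, Equiv.symm_apply_apply]
  · have h1 := hA I hI
    refine h1.trans (Nat.mul_le_mul_left _ (card_le_card ?_))
    intro ρ hρ
    rw [mem_filter] at hρ ⊢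
    refine ⟨mem_univ _, ?_⟩
    rw [sm_output he A voc hvoc E]
    exact hρ.2

open Classical in
/-- Trivial vocabularies. -/
theorem Mach.vocab_trivial (A : Mach n d a e D W r R) : A.Vocab (D * W * r) (D * W) := by
  constructor
  · intro fl ρ
    refine ⟨(univ : Finset ((Fin D × Fin W) × Fin r)).biUnion fun x =>
      match A.upd fl ρ x.1.1.val x.1.2 x.2 with
      | .inl _ => ∅
      | .inr f => {f.1}, ?_, ?_⟩
    · refine card_biUnion_le.trans ?_
      refine (sum_le_sum (g := fun _ => 1) fun x _ => ?_).trans ?_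
      · rcases A.upd fl ρ x.1.1.val x.1.2 x.2 with j | f
        · simp
        · simp
      · rw [sum_const, smul_eq_mul, mul_one, card_univ]
        simp
    · intro t v i f ht h
      rw [mem_biUnion]
      refine ⟨((⟨t, ht⟩, v), i), mem_univ _, ?_⟩
      simp only
      rw [h]
      exact mem_singleton_self _
  · intro fl ρ
    refine ⟨(univ : Finset (Fin D × Fin W)).image fun x =>
      match A.ask fl ρ x.1.val x.2 with
      | .sign f _ => f
      | .zero f _ => f, ?_, ?_⟩
    · refine card_image_le.trans ?_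
      rw [card_univ]
      simp
    · intro t v f hf ht hq
      rw [mem_image]
      refine ⟨(⟨t, ht⟩, v), mem_univ _, ?_⟩
      simp only
      rw [hq]

end Pool.Agent.Helper21.RM
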